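import Pool.Agent.TH664.LN.R1Fin

/-! # The least quadratic twist of infinite order in a residue class

Let `E : y² = x³ + A x + B` be any elliptic curve over `ℚ` (integers `A`, `B` with
`4 A³ + 27 B² ≠ 0`). There is a constant `C`, depending only on `E`, such that for every modulus
`M ≥ 1`, every class `a` modulo `M` which contains a squarefree number at all, and both signs
`e = ±1`, there is a squarefree `d ≡ a (mod M)` with `d ≤ C M ^ 30 gcd(a, M) ^ 8` such that the
quadratic twist of `E` by `e d` has infinitely many rational points. This is a theorem of the type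
of Linnik for the twists of positive rank, with explicit exponents.

Proof. For coprime `s`, `v` the twist by `d = h (s³ + A s v² + B v³)`, `v = h Q²`, has the rational
point with `x / d = s / v`, of infinite order if `s` is large (`TH562/TW`). With `Q` a fixed
multiple of `M`, `s ≡ 1 (mod Q)` and `h ≡ n₀` modulo `Q gcd(a, M)` for a squarefree
`n₀ ≡ a (mod M)`, this `d` is in the class `a` and is not divisible by the square of a prime
dividing `Q`. The squares of the other primes are sieved out over boxes of pairs `(s, h)`: for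
each prime `p` the pairs with `p²` dividing the value lie in at most three classes of the ratio
`s / v` modulo `p²`; for small `p` one counts `s` for each `h`, and for `p²` larger than the products
`s h` two coprime pairs in the same class are equal, so that there are at most three pairs for each
such prime. -/

set_option autoImplicit false

namespace Pool.Agent.Results.MP_4a9ea6_nt.LeastTwistInResidueClasses

/-- the affine rational points of the quadratic twist `y² = x³ + A t² x + B t³` -/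
def TwistPoints (A B t : ℤ) : Set (ℚ × ℚ) :=
  {p | p.2 ^ 2 = p.1 ^ 3 + (A * t ^ 2 : ℤ) * p.1 + (B * t ^ 3 : ℤ)}

theorem result (A B : ℤ) (hE : 4 * A ^ 3 + 27 * B ^ 2 ≠ 0) :
    ∃ C : ℕ, ∀ M : ℕ, 0 < M → ∀ a : ℕ, (∃ n : ℕ, Squarefree n ∧ n ≡ a [MOD M]) →
      ∀ e ∈ ({1, -1} : Set ℤ), ∃ d : ℕ, Squarefree d ∧ d ≡ a [MOD M] ∧
        d ≤ C * M ^ 30 * (Nat.gcd a M) ^ 8 ∧ (TwistPoints A B (e * d)).Infinite := by
  have hE' : 4 * A ^ 3 + 27 * (-B) ^ 2 ≠ 0 := by rwa [neg_sq]
  obtain ⟨C1, H1⟩ := Pool.Agent.TH664.LN.rank1_main hE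
  obtain ⟨C2, H2⟩ := Pool.Agent.TH664.LN.rank1_main hE'
  have h1 : ∀ d : ℕ, TwistPoints A B (1 * d) =
      {p : ℚ × ℚ | p.2 ^ 2 = p.1 ^ 3 + A * (d : ℚ) ^ 2 * p.1 + B * (d : ℚ) ^ 3} := by
    intro d
    unfold TwistPoints
    push_cast
    simp only [one_mul]
  have h2 : ∀ d : ℕ, TwistPoints A B (-1 * d) =
      {p : ℚ × ℚ | p.2 ^ 2 = p.1 ^ 3 + A * (d : ℚ) ^ 2 * p.1 + ((-B : ℤ) : ℚ) * (d : ℚ) ^ 3} := by
    intro d
    unfold TwistPoints
    have e1 : (-1 * (d : ℤ)) ^ 2 = (d : ℤ) ^ 2 := by ring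
    have e2 : (-1 * (d : ℤ)) ^ 3 = -(d : ℤ) ^ 3 := by ring
    rw [e1, e2]
    push_cast
    simp only [mul_neg, neg_mul]
  refine ⟨C1 + C2, fun M hM a ha e he => ?_⟩
  have hle : ∀ c : ℕ, c ≤ C1 + C2 →
      c * M ^ 30 * (Nat.gcd a M) ^ 8 ≤ (C1 + C2) * M ^ 30 * (Nat.gcd a M) ^ 8 := by
    intro c hc
    gcongr
  rcases he with rfl | he
  · obtain ⟨d, g1, g2, g3, g4⟩ := H1 M hM a ha
    exact ⟨d, g1, g2, g3.trans (hle _ (Nat.le_add_right _ _)), by rw [h1]; exact g4⟩
  · rw [Set.mem_singleton_iff] at he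
    subst he
    obtain ⟨d, g1, g2, g3, g4⟩ := H2 M hM a ha
    exact ⟨d, g1, g2, g3.trans (hle _ (Nat.le_add_left _ _)), by rw [h2]; exact g4⟩

end Pool.Agent.Results.MP_4a9ea6_nt.LeastTwistInResidueClasses
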