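import Pool.Agent.TH854.AE.Three
import Pool.Agent.TH562.RF.Sign

/-!
# The number of quadratic twists of positive rank, for every elliptic curve over `ℚ`

For every elliptic curve `E : y² = x³ + A x + B` over `ℚ`, every modulus `M`, every class modulo `M`
which contains a squarefree number and both signs `e = ±1`, at least `c X^(1/2) (log X)^k`
squarefree `d ≤ X` in the class are such that the twist of `E` by `e d` has positive rank; here
`k = 2`, `k = 3` or `k = 4` if `E` has none, one or three rational points of order two, that is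
`k = 2 + dim E(ℚ)[2]`. By the theorem of Gross and Zagier and of Kolyvagin the `L`-series of these
twists vanish at `s = 1`, and where the sign of the functional equation is `+1` they vanish to order
at least two: this is the open case of the conjecture.

Proof. `d = v F(u, h v) / (z₀ z₁)²` with `z₀² ∣ v`, `z₁² ∣ F(u, h v)`, `F` the binary form of the
cubic, `(u, v)` in a box of side `X^(1/4) (z₀ z₁)^(1/2)`. A sieve for squarefree values gives at least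
`c X^(1/2) ρ(z₁) / (z₀ z₁)` pairs on average, where `ρ(z₁)` is the number of roots of the cubic modulo
`z₁²`, and the sum of `ρ(z₁) / z₁` over squarefree `z₁ ≤ R` is at least `c (log R)^(k - 1)`, by the
count of the ideals of bounded norm in the field of a root. A prime `p ≈ X^(1/5)` dividing `v` is
marked: two representations of the same `d` with the same `p` give a cubic congruence modulo `p` for
the quotient of the two values of `u`, with `O(X^(1/2 - δ))` possible coefficients, so that almost all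
`d` obtained are different.
-/

set_option autoImplicit false

namespace Pool.Agent.Results.MP_4a9ea6_nt.PositiveRankTwistCount

open Pool.Agent.W263.BSD (IsLSeries)
open Pool.Agent.TH562.RF (rank GrossZagierKolyvagin SignIs)

/-- For every class `b` prime to `M` there is `e = 1` or `-1` such that the functional equations of
all twists by `e d ≡ b mod M`, `d` squarefree, of `y² = x³ + A x + B` have the sign `+1`. (For every
`A`, `B` this is true for all multiples `M` of some `M₀`.) -/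
def SignLaw (A B : ℤ) (M : ℕ) : Prop :=
  ∀ b : ℤ, IsCoprime b M → ∃ e ∈ ({1, -1} : Set ℤ), ∀ d : ℕ, Squarefree d →
    e * d ≡ b [ZMOD M] → ∀ F : ℂ → ℂ, IsLSeries (A * (e * d) ^ 2) (B * (e * d) ^ 3) F →
      SignIs (A * (e * d) ^ 2) (B * (e * d) ^ 3) F 1

theorem disc_ne {A B t : ℤ} (hΔ : 4 * A ^ 3 + 27 * B ^ 2 ≠ 0) (ht : t ≠ 0) :
    4 * (A * t ^ 2) ^ 3 + 27 * (B * t ^ 3) ^ 2 ≠ 0 := by
  have e : 4 * (A * t ^ 2) ^ 3 + 27 * (B * t ^ 3) ^ 2 = t ^ 6 * (4 * A ^ 3 + 27 * B ^ 2) := by ring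
  rw [e]
  exact mul_ne_zero (pow_ne_zero 6 ht) hΔ

/-- **Theorem.** -/
theorem result (A B : ℤ) (hΔ : 4 * A ^ 3 + 27 * B ^ 2 ≠ 0) (k : ℕ)
    (hk : k = 2 ∨ (k = 3 ∧ ∃ n : ℤ, n ^ 3 + A * n + B = 0) ∨
      (k = 4 ∧ ∃ n₁ n₂ n₃ : ℤ, n₁ ≠ n₂ ∧ n₁ ≠ n₃ ∧ n₂ ≠ n₃ ∧ n₁ ^ 3 + A * n₁ + B = 0 ∧
        n₂ ^ 3 + A * n₂ + B = 0 ∧ n₃ ^ 3 + A * n₃ + B = 0)) (M : ℕ) (hM : 0 < M) :
    ∃ c : ℝ, 0 < c ∧ ∃ X₀ : ℝ, ∀ X : ℝ, X₀ ≤ X →
      (∀ a : ℕ, (∃ d₀ : ℕ, Squarefree d₀ ∧ d₀ ≡ a [MOD M]) → ∀ e ∈ ({1, -1} : Set ℤ),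
        c * (X ^ (1 / 2 : ℝ) * Real.log X ^ k) ≤
          ({d : ℕ | (d : ℝ) ≤ X ∧ Squarefree d ∧ d ≡ a [MOD M] ∧
            1 ≤ rank (A * (e * d) ^ 2) (B * (e * d) ^ 3) ∧
            (GrossZagierKolyvagin → ∀ F : ℂ → ℂ,
              IsLSeries (A * (e * d) ^ 2) (B * (e * d) ^ 3) F → F 1 = 0)}.ncard : ℝ)) ∧
      (GrossZagierKolyvagin → SignLaw A B M → ∀ b : ℤ, IsCoprime b M →
        ∃ e ∈ ({1, -1} : Set ℤ),
        c * (X ^ (1 / 2 : ℝ) * Real.log X ^ k) ≤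
          ({d : ℕ | (d : ℝ) ≤ X ∧ Squarefree d ∧ e * d ≡ b [ZMOD M] ∧
            1 ≤ rank (A * (e * d) ^ 2) (B * (e * d) ^ 3) ∧
            ∀ F : ℂ → ℂ, IsLSeries (A * (e * d) ^ 2) (B * (e * d) ^ 3) F →
              2 ≤ analyticOrderAt F 1}.ncard : ℝ)) := by
  obtain ⟨r, hr, hG, hG'⟩ : ∃ r : ℕ, k = r + 1 ∧
      (∀ g : ℕ, 0 < g → Pool.Agent.TH854.AE.GLow (A * (g : ℤ) ^ 2) (B * (g : ℤ) ^ 3) r) ∧
      (∀ g : ℕ, 0 < g → Pool.Agent.TH854.AE.GLow (A * (g : ℤ) ^ 2) (-B * (g : ℤ) ^ 3) r) := by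
    have tw : ∀ (g : ℕ) (n : ℤ), n ^ 3 + A * n + B = 0 →
        (n * (g : ℤ)) ^ 3 + A * (g : ℤ) ^ 2 * (n * g) + B * (g : ℤ) ^ 3 = 0 := by
      intro g n hn
      have e1 : (n * (g : ℤ)) ^ 3 + A * (g : ℤ) ^ 2 * (n * g) + B * (g : ℤ) ^ 3 =
          (g : ℤ) ^ 3 * (n ^ 3 + A * n + B) := by ring
      rw [e1, hn, mul_zero]
    have tw' : ∀ (g : ℕ) (n : ℤ), n ^ 3 + A * n + B = 0 →
        (-n * (g : ℤ)) ^ 3 + A * (g : ℤ) ^ 2 * (-n * g) + -B * (g : ℤ) ^ 3 = 0 := by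
      intro g n hn
      have e1 : (-n * (g : ℤ)) ^ 3 + A * (g : ℤ) ^ 2 * (-n * g) + -B * (g : ℤ) ^ 3 =
          -(g : ℤ) ^ 3 * (n ^ 3 + A * n + B) := by ring
      rw [e1, hn, mul_zero]
    rcases hk with rfl | ⟨rfl, n, hn⟩ | ⟨rfl, n₁, n₂, n₃, h12, h13, h23, h1, h2, h3⟩
    · exact ⟨1, rfl, fun g _ => Pool.Agent.TH854.AE.GLow_one _ _,
        fun g _ => Pool.Agent.TH854.AE.GLow_one _ _⟩
    · exact ⟨2, rfl, fun g _ => Pool.Agent.TH854.AE.GLow_two _ _ (n * g) (tw g n hn),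
        fun g _ => Pool.Agent.TH854.AE.GLow_two _ _ (-n * g) (tw' g n hn)⟩
    · refine ⟨3, rfl, fun g hg => ?_, fun g hg => ?_⟩
      · have hg0 : (g : ℤ) ≠ 0 := by exact_mod_cast hg.ne'
        exact Pool.Agent.TH854.AE.GLow_three _ _ (n₁ * g) (n₂ * g) (n₃ * g)
          (fun h => h12 (mul_right_cancel₀ hg0 h)) (fun h => h13 (mul_right_cancel₀ hg0 h))
          (fun h => h23 (mul_right_cancel₀ hg0 h)) (tw g n₁ h1) (tw g n₂ h2) (tw g n₃ h3)
      · have hg0 : (g : ℤ) ≠ 0 := by exact_mod_cast hg.ne'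
        exact Pool.Agent.TH854.AE.GLow_three _ _ (-n₁ * g) (-n₂ * g) (-n₃ * g)
          (fun h => h12 (neg_inj.1 (mul_right_cancel₀ hg0 h)))
          (fun h => h13 (neg_inj.1 (mul_right_cancel₀ hg0 h)))
          (fun h => h23 (neg_inj.1 (mul_right_cancel₀ hg0 h))) (tw' g n₁ h1) (tw' g n₂ h2)
          (tw' g n₃ h3)
  obtain ⟨c, hc, X₀, H⟩ := Pool.Agent.TH854.AE.both_signs A B r hG hG' hΔ M hM
  refine ⟨c, hc, X₀, fun X hX => ?_⟩
  have hfin : ∀ P : ℕ → Prop, {d : ℕ | (d : ℝ) ≤ X ∧ P d}.Finite := by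
    intro P
    apply (Set.finite_Iic ⌊X⌋₊).subset
    intro n hn
    exact Nat.le_floor hn.1
  -- one twist
  have hone : ∀ e ∈ ({1, -1} : Set ℤ), ∀ d : ℕ, Squarefree d →
      (Pool.Agent.TH854.AE.TwistPoints A B (e * d)).Infinite →
      1 ≤ rank (A * (e * d) ^ 2) (B * (e * d) ^ 3) ∧
        (GrossZagierKolyvagin → ∀ F : ℂ → ℂ,
          IsLSeries (A * (e * d) ^ 2) (B * (e * d) ^ 3) F → F 1 = 0) := by
    intro e he d hd hinf
    have he0 : e ≠ 0 := by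
      simp only [Set.mem_insert_iff, Set.mem_singleton_iff] at he
      rcases he with rfl | rfl <;> norm_num
    have ht0 : e * (d : ℤ) ≠ 0 := mul_ne_zero he0 (by exact_mod_cast hd.ne_zero)
    have hne := disc_ne hΔ ht0
    have hr1 : 1 ≤ rank (A * (e * d) ^ 2) (B * (e * d) ^ 3) :=
      Pool.Agent.TH562.RF.one_le_rank hne hinf
    refine ⟨hr1, fun hGZK F hF => ?_⟩
    have h1 := Pool.Agent.TH562.RF.order_ge hGZK hne hF (k := 1) (by norm_num) hr1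
    refine apply_eq_zero_of_analyticOrderAt_ne_zero (𝕜 := ℂ) ?_
    intro h0
    rw [h0] at h1
    exact absurd h1 (by norm_num)
  have hall : ∀ a : ℕ, (∃ d₀ : ℕ, Squarefree d₀ ∧ d₀ ≡ a [MOD M]) → ∀ e ∈ ({1, -1} : Set ℤ),
        c * (X ^ (1 / 2 : ℝ) * Real.log X ^ k) ≤
          ({d : ℕ | (d : ℝ) ≤ X ∧ Squarefree d ∧ d ≡ a [MOD M] ∧
            1 ≤ rank (A * (e * d) ^ 2) (B * (e * d) ^ 3) ∧
            (GrossZagierKolyvagin → ∀ F : ℂ → ℂ,
              IsLSeries (A * (e * d) ^ 2) (B * (e * d) ^ 3) F → F 1 = 0)}.ncard : ℝ) := by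
    intro a ha e he
    rw [hr]
    refine (H X hX a ha e he).trans ?_
    have hsub : {d : ℕ | (d : ℝ) ≤ X ∧ Squarefree d ∧ d ≡ a [MOD M] ∧
          (Pool.Agent.TH854.AE.TwistPoints A B (e * d)).Infinite} ⊆
        {d : ℕ | (d : ℝ) ≤ X ∧ Squarefree d ∧ d ≡ a [MOD M] ∧
            1 ≤ rank (A * (e * d) ^ 2) (B * (e * d) ^ 3) ∧
            (GrossZagierKolyvagin → ∀ F : ℂ → ℂ,
              IsLSeries (A * (e * d) ^ 2) (B * (e * d) ^ 3) F → F 1 = 0)} := by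
      rintro d ⟨h1, h2, h3, h4⟩
      obtain ⟨h5, h6⟩ := hone e he d h2 h4
      exact ⟨h1, h2, h3, h5, h6⟩
    exact_mod_cast Set.ncard_le_ncard hsub (hfin _)
  refine ⟨hall, fun hGZK hS b hb => ?_⟩
  obtain ⟨e, he, hsign⟩ := hS b hb
  have hMZ : (0 : ℤ) < M := by exact_mod_cast hM
  have he2 : e * e = 1 := by
    simp only [Set.mem_insert_iff, Set.mem_singleton_iff] at he
    rcases he with rfl | rfl <;> norm_num
  have hea : (((e * b) % M).toNat : ℤ) = (e * b) % M :=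
    Int.toNat_of_nonneg (Int.emod_nonneg _ hMZ.ne')
  have hcop : (((e * b) % M).toNat).Coprime M := by
    rw [← Nat.isCoprime_iff_coprime, hea, Int.emod_def]
    have h1 : IsCoprime (e * b) (M : ℤ) := by
      refine IsCoprime.mul_left ?_ hb
      exact ⟨e, 0, by rw [he2]; ring⟩
    have h2 : e * b - (M : ℤ) * (e * b / M) = e * b + (M : ℤ) * (-(e * b / M)) := by ring
    rw [h2]
    exact (IsCoprime.add_mul_left_left_iff).2 h1
  have hsf : ∃ d₀ : ℕ, Squarefree d₀ ∧ d₀ ≡ ((e * b) % M).toNat [MOD M] := by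
    obtain ⟨p, _, hp, hpm⟩ := Nat.forall_exists_prime_gt_and_modEq 0 hM.ne' hcop
    exact ⟨p, hp.prime.squarefree, hpm⟩
  refine ⟨e, he, (hall _ hsf e he).trans ?_⟩
  have hsub : {d : ℕ | (d : ℝ) ≤ X ∧ Squarefree d ∧ d ≡ ((e * b) % M).toNat [MOD M] ∧
            1 ≤ rank (A * (e * d) ^ 2) (B * (e * d) ^ 3) ∧
            (GrossZagierKolyvagin → ∀ F : ℂ → ℂ,
              IsLSeries (A * (e * d) ^ 2) (B * (e * d) ^ 3) F → F 1 = 0)} ⊆
      {d : ℕ | (d : ℝ) ≤ X ∧ Squarefree d ∧ e * d ≡ b [ZMOD M] ∧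
            1 ≤ rank (A * (e * d) ^ 2) (B * (e * d) ^ 3) ∧
            ∀ F : ℂ → ℂ, IsLSeries (A * (e * d) ^ 2) (B * (e * d) ^ 3) F →
              2 ≤ analyticOrderAt F 1} := by
    rintro d ⟨h1, h2, h3, h4, h5⟩
    have hed : e * d ≡ b [ZMOD M] := by
      have g1 : (d : ℤ) ≡ (((e * b) % M).toNat : ℕ) [ZMOD M] := (Int.natCast_modEq_iff).2 h3
      rw [hea] at g1
      have g2 : (d : ℤ) ≡ e * b [ZMOD M] := g1.trans (Int.mod_modEq _ _)
      have g3 := g2.mul_left e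
      rwa [← mul_assoc, he2, one_mul] at g3
    refine ⟨h1, h2, hed, h4, fun F hF => ?_⟩
    exact Pool.Agent.TH562.RF.two_le_of_sign (hsign d h2 hed F hF) (h5 hGZK F hF)
  exact_mod_cast Set.ncard_le_ncard hsub (hfin _)

end Pool.Agent.Results.MP_4a9ea6_nt.PositiveRankTwistCount
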