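import Mathlib
import Pool.Agent.TH841.PT.FamW

/-!
# Tate-Shafarevich groups of twists by numbers with many or few prime factors

`E : y² = x³ + A x + B` is an elliptic curve with three integer roots and `D = c G₁ ... G_r` a
constant times a product of pairwise different irreducible polynomials with integer coefficients, of
any degrees. For every real `lam > 0` and all `s` and `k` the sum of
`lam ^ ω(D(t)) * (2 ^ rank * #Ш[2 ^ k] ^ (1 / k)) ^ s` over the twists of `E` by `D(t)`,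
`N < t ≤ N + M`, is at most `C M (log M) ^ ((lam - 1) r)`, uniformly for `|N| ≤ M ^ L`
(`ω(n)` is the number of primes dividing `n`). So ranks and Tate-Shafarevich groups do not grow if
the numbers `D(t)` have many prime factors: among the `t` with `ω(D(t)) ≥ lam r log log M`
(`lam ≥ 1`; or `≤`, `lam < 1`) at most `C M / ((log M) ^ (r (lam log lam - lam + 1)) 2 ^ (s n))`
have a twist of rank at least `n`.
-/

set_option autoImplicit false

namespace Pool.Agent.Results.MP_4a9ea6_nt.WeightedTwists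

open Finset Polynomial

open Pool.Agent.TH841.SH.D (Sha ShaTor HasDiv rk)

/-- the quadratic twist `y² = x³ + d² A x + d³ B` of `y² = x³ + A x + B` over `ℚ` by `d` -/
def Tw (A B d : ℤ) : WeierstrassCurve ℚ := ⟨0, 0, 0, ((d ^ 2 * A : ℤ) : ℚ), ((d ^ 3 * B : ℤ) : ℚ)⟩

/-- the integers `t` with `N < t ≤ N + M` and `D(t) ≠ 0` -/
noncomputable def Par (D : ℤ[X]) (N : ℤ) (M : ℕ) : Finset ℤ :=
  (Ioc N (N + M)).filter (fun t => D.eval t ≠ 0)

/-- the number of the primes dividing `n` -/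
def om (n : ℤ) : ℕ := n.natAbs.primeFactors.card

open Classical in
/-- **Theorem.** Let `y² = (x - e₁) (x - e₂) (x - e₃) = x³ + A x + B` be an elliptic curve with
integers `e₁`, `e₂`, `e₃` and `D = c G₁ ... G_r`, `r ≥ 1`, `c` a nonzero integer and the `G_i`
pairwise non-associated irreducible polynomials of positive degree with integer coefficients. Let
`W_t` be the quadratic twist of the curve by `D(t)`. For all real `lam > 0` and all `s` and `L`
there is `C` such that for all integers `M ≥ 2` and `|N| ≤ M ^ L` and the `t` with `N < t ≤ N + M`,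
`D(t) ≠ 0`: the groups `Ш(W_t)[2 ^ k]` are finite, the sum of
`lam ^ ω(D(t)) * (2 ^ rank * #Ш(W_t)[2 ^ k] ^ (1 / k)) ^ s` is at most
`C M (log M) ^ ((lam - 1) r)` for all `k ≥ 1`, and at most
`C M / ((log M) ^ (r (lam log lam - lam + 1)) 2 ^ (s (n + q)))` of these `t` with
`ω(D(t)) ≥ lam r log log M` (if `lam ≥ 1`; `ω(D(t)) ≤ lam r log log M` if `lam < 1`) have a twist
`W_t` of rank at least `n` with a subgroup `(ℚ₂ / ℤ₂) ^ q` in the Tate-Shafarevich group. -/
theorem result (A B e₁ e₂ e₃ : ℤ) (hE : 4 * A ^ 3 + 27 * B ^ 2 ≠ 0)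
    (he : ∀ x : ℤ, x ^ 3 + A * x + B = (x - e₁) * (x - e₂) * (x - e₃))
    (r : ℕ) (hr : 0 < r) (G : Fin r → ℤ[X])
    (hG : ∀ i, Irreducible (G i) ∧ 0 < (G i).natDegree)
    (hG' : ∀ i j, i ≠ j → ¬ Associated (G i) (G j)) (c : ℤ) (hc : c ≠ 0)
    (D : ℤ[X]) (hD : D = C c * ∏ i, G i) (lam : ℝ) (hlam : 0 < lam) (s L : ℕ) :
    ∃ K : ℝ, ∀ (N : ℤ) (M : ℕ), 2 ≤ M → |N| ≤ (M : ℤ) ^ L →
      (∀ t ∈ Par D N M, ∀ k : ℕ, Finite (ShaTor (Tw A B (D.eval t)) (2 ^ k))) ∧
      (∀ k : ℕ, 1 ≤ k → ∑ t ∈ Par D N M, lam ^ om (D.eval t) *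
        ((2 : ℝ) ^ rk (Tw A B (D.eval t)) *
          (Nat.card (ShaTor (Tw A B (D.eval t)) (2 ^ k)) : ℝ) ^ ((1 : ℝ) / k)) ^ s ≤
            K * (M * (Real.log M) ^ ((lam - 1) * r))) ∧
      ∀ n q : ℕ, (((Par D N M).filter (fun t => n ≤ rk (Tw A B (D.eval t)) ∧
        HasDiv (Tw A B (D.eval t)) q ∧
        (1 ≤ lam → lam * r * Real.log (Real.log M) ≤ om (D.eval t)) ∧
        (lam < 1 → om (D.eval t) ≤ lam * r * Real.log (Real.log M)))).card : ℝ) ≤
          K * (M / (Real.log M) ^ (r * (lam * Real.log lam - lam + 1))) / 2 ^ (s * (n + q)) := by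
  have hirr : Pool.Agent.TH841.PT.Irr G :=
    ⟨fun i => (hG i).1, fun i => (hG i).2, hG'⟩
  exact Pool.Agent.TH841.PT.sha_w hirr hr hc hE he D hD lam hlam s L

end Pool.Agent.Results.MP_4a9ea6_nt.WeightedTwists
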